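import Pool.Agent.Run7.h914.Rsys

set_option autoImplicit false

/-!
# Record prime gaps at the solutions of systems with rational functions modulo primes

Write `f(x) = log x (log₂ x)² log₄ x / (log₃ x)²` for the record size of the prime-free intervals.

(1) Let `p` be a large prime, `n > 2 k`, and let `R_ij = P_ij / Q_i` (`i ≤ n`, `j ≤ k`) be ANY rational functions over
the field with `p` elements, with `P_ij` and `Q_i` of degrees at most `p ^ (δ / (200 n))`, such that for every `i` no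
nontrivial linear combination of `R_i1, …, R_ik` is of the form `a X + c`.  Consider the solutions modulo `p` of

  `R_1j(x_1) + … + R_nj(x_n) ≡ b_j   (j = 1, …, k)`.

Every box `∏ (M_i, M_i + L_i]` with sides between `p ^ δ` and `p` and of volume `V ≥ p ^ (max (n / 2 + k) (n - 1) + δ)`
contains at least `p ^ (-δ) V / p ^ k` integer points `z` which are solutions such that every integer within `κ f(p)` of
`z₁ ^ (e₁) ⋯ z_n ^ (e_n)` has a prime factor `≤ p ^ δ`, for all coprime exponents `e_j ≤ E`.  So all these numbers are in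
the middle of prime-free intervals of record length.  (About `V / p ^ k` points of the box are solutions.)

(2) In particular, for `n ≥ 3` every residue `b` modulo every large prime `p` is an Egyptian fraction
`1 / z_1 + … + 1 / z_n`, the `z_i` being positive integers up to `p ^ (5 / 6 + δ)` (for `n = 3`), `p ^ (3 / 4 + δ)` (for
`n = 4`), `p ^ (1 - 1 / n + δ)` in general, which are all (with all their coprime monomials) in the middle of record
prime gaps.

Proof.  The exponential sums over the solutions are, by the orthogonality of the characters, means of products of `n`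
sums of one variable, which are `O(√p)` by Weil's bound for rational functions (our bound `exp_rat`); for the trivial
frequency of the system the product is at most (number of poles) `p ^ (n - 1)`.  Then the joint covering sieve of the
starting library `N39.RG`.
-/

namespace Pool.Agent.Results.MP_7b323f_nt.EgyptianFractionsModP

open Polynomial

/-- The record scale `f(x) = log x (log₂ x)² log₄ x / (log₃ x)²` (iterated natural logarithms). -/
noncomputable def f (x : ℝ) : ℝ :=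
  Real.log x * (Real.log (Real.log x)) ^ 2 * Real.log (Real.log (Real.log (Real.log x))) /
    (Real.log (Real.log (Real.log x))) ^ 2

/-- Every integer within `κ f(p)` of `n` has a prime factor at most `p ^ δ`. -/
def Centre (κ δ : ℝ) (p : ℕ) (n : ℤ) : Prop :=
  ∀ m : ℤ, |(m : ℝ) - n| ≤ κ * f p → ∃ l : ℕ, l.Prime ∧ (l : ℝ) ≤ (p : ℝ) ^ δ ∧ (l : ℤ) ∣ m

/-- `z` is in the box, and all its monomials with coprime exponents `≤ E` are centres. -/
def GoodPoint {r : ℕ} (E : ℕ) (κ δ : ℝ) (p : ℕ) (M : Fin r → ℤ) (L : Fin r → ℕ) (z : Fin r → ℤ) : Prop :=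
  (∀ j, M j < z j ∧ z j ≤ M j + L j) ∧
    ∀ e : Fin r → ℕ, (∀ j, e j ≤ E) → Finset.univ.gcd e = 1 → Centre κ δ p (∏ j, z j ^ e j)

/-- The general theorem. -/
theorem main (n k E : ℕ) (hn : 2 * k < n) (δ : ℝ) (hδ : 0 < δ) (hδ1 : δ ≤ 1) :
    ∃ κ : ℝ, 0 < κ ∧ ∃ p₀ : ℕ, ∀ (p : ℕ) [Fact p.Prime], p₀ ≤ p →
      ∀ (d : ℕ) (P : Fin n → Fin k → (ZMod p)[X]) (Q : Fin n → (ZMod p)[X]) (b : Fin k → ZMod p),
      (d : ℝ) ≤ (p : ℝ) ^ (δ / (200 * n)) →
      (∀ i, Q i ≠ 0) → (∀ i j, (P i j).natDegree ≤ d) → (∀ i, (Q i).natDegree ≤ d) →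
      (∀ i, ∀ (t : Fin k → ZMod p) (a c : ZMod p), ∑ j, C (t j) * P i j = (C a * X + C c) * Q i → t = 0) →
      ∀ (M : Fin n → ℤ) (L : Fin n → ℕ), (∀ j, (p : ℝ) ^ δ ≤ L j ∧ L j ≤ p) →
        (p : ℝ) ^ (max ((n : ℝ) / 2 + k) (n - 1) + δ) ≤ ∏ j, (L j : ℝ) →
      (p : ℝ) ^ (-δ) * ((∏ j, (L j : ℝ)) / (p : ℝ) ^ k) ≤
        (Set.ncard {z : Fin n → ℤ | GoodPoint E κ δ p M L z ∧ (∀ i, (Q i).eval (z i : ZMod p) ≠ 0) ∧
          ∀ j, ∑ i, (P i j).eval (z i : ZMod p) / (Q i).eval (z i : ZMod p) = b j} : ℝ) := by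
  obtain ⟨κ, hκ, p₀, h⟩ := Run7.h914.rec_rsys n k E hn δ hδ hδ1
  refine ⟨κ, hκ, p₀, ?_⟩
  intro p _ hpp d P Q b hd hQ hP hQd hind M L hL hV
  have hp : p.Prime := Fact.out
  have hp0 : (0 : ℝ) < p := by exact_mod_cast hp.pos
  have key := h p hpp d P Q b hd hQ hP hQd hind M L hL hV
  have hv : (p : ℝ) ^ ((n : ℝ) - k) * ∏ j, ((L j : ℝ) / p) = (∏ j, (L j : ℝ)) / (p : ℝ) ^ k := by
    rw [Finset.prod_div_distrib, Finset.prod_const, Finset.card_univ, Fintype.card_fin, Real.rpow_sub hp0,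
      Real.rpow_natCast, Real.rpow_natCast]
    field_simp
  rw [hv] at key
  refine key.trans ?_
  rw [Nat.cast_le]
  refine Set.ncard_le_ncard ?_ ?_
  · rintro z ⟨h1, h2, h3⟩
    refine ⟨⟨h1, fun e he hg m hm => h3 e he hg m ?_⟩, h2⟩
    push_cast at hm
    exact hm
  · refine (Set.Finite.pi' (fun j => Set.finite_Ioc (M j) (M j + L j))).subset ?_
    intro z hz j
    exact hz.1.1 j

/-- **Record prime gaps at the solutions of systems with rational functions modulo primes.** -/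
theorem result (n E : ℕ) (δ : ℝ) (hδ : 0 < δ) (hδ1 : δ ≤ 1) :
    (∀ k : ℕ, 2 * k < n → ∃ κ : ℝ, 0 < κ ∧ ∃ p₀ : ℕ, ∀ (p : ℕ) [Fact p.Prime], p₀ ≤ p →
      ∀ (d : ℕ) (P : Fin n → Fin k → (ZMod p)[X]) (Q : Fin n → (ZMod p)[X]) (b : Fin k → ZMod p),
      (d : ℝ) ≤ (p : ℝ) ^ (δ / (200 * n)) →
      (∀ i, Q i ≠ 0) → (∀ i j, (P i j).natDegree ≤ d) → (∀ i, (Q i).natDegree ≤ d) →
      (∀ i, ∀ (t : Fin k → ZMod p) (a c : ZMod p), ∑ j, C (t j) * P i j = (C a * X + C c) * Q i → t = 0) →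
      ∀ (M : Fin n → ℤ) (L : Fin n → ℕ), (∀ j, (p : ℝ) ^ δ ≤ L j ∧ L j ≤ p) →
        (p : ℝ) ^ (max ((n : ℝ) / 2 + k) (n - 1) + δ) ≤ ∏ j, (L j : ℝ) →
      (p : ℝ) ^ (-δ) * ((∏ j, (L j : ℝ)) / (p : ℝ) ^ k) ≤
        (Set.ncard {z : Fin n → ℤ | GoodPoint E κ δ p M L z ∧ (∀ i, (Q i).eval (z i : ZMod p) ≠ 0) ∧
          ∀ j, ∑ i, (P i j).eval (z i : ZMod p) / (Q i).eval (z i : ZMod p) = b j} : ℝ)) ∧
    (3 ≤ n → ∃ κ : ℝ, 0 < κ ∧ ∃ p₀ : ℕ, ∀ (p : ℕ) [Fact p.Prime], p₀ ≤ p →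
      ∀ (b : ZMod p) (H : ℕ), (p : ℝ) ^ (max (1 / 2 + 1 / (n : ℝ)) (1 - 1 / n) + δ) ≤ H → H ≤ p →
      (p : ℝ) ^ (-δ) * ((H : ℝ) ^ n / p) ≤
        (Set.ncard {z : Fin n → ℤ | GoodPoint E κ δ p (fun _ => 0) (fun _ => H) z ∧ (∀ i, ¬ (p : ℤ) ∣ z i) ∧
          ∑ i, (z i : ZMod p)⁻¹ = b} : ℝ)) := by
  refine ⟨fun k hk => main n k E hk δ hδ hδ1, fun hn => ?_⟩
  obtain ⟨κ, hκ, p₀, h⟩ := main n 1 E (by omega) δ hδ hδ1
  have hn0 : (0 : ℝ) < n := by exact_mod_cast (by omega : 0 < n)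
  obtain ⟨p₁, h1⟩ := Run7.h914.ev_const (δ / (200 * n)) 1 (by positivity)
  refine ⟨κ, hκ, max p₀ p₁, ?_⟩
  intro p _ hpp b H hH hHp
  have hp : p.Prime := Fact.out
  have hp0 : (0 : ℝ) < p := by exact_mod_cast hp.pos
  have hp1 : (1 : ℝ) ≤ p := by exact_mod_cast hp.one_lt.le
  have hn3 : (3 : ℝ) ≤ n := by exact_mod_cast hn
  have key := h p ((le_max_left _ _).trans hpp) 1 (fun _ _ => 1) (fun _ => X) (fun _ => b)
    (by rw [Nat.cast_one]; exact h1 p ((le_max_right _ _).trans hpp)) (fun _ => X_ne_zero)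
    (fun _ _ => by rw [natDegree_one]; exact Nat.zero_le _) (fun _ => natDegree_X_le) (by
      intro _ t a c h2
      rw [Fin.sum_univ_one, mul_one] at h2
      have h3 := congrArg (eval 0) h2
      rw [eval_C, eval_mul, eval_X, mul_zero] at h3
      funext j
      rw [Subsingleton.elim j 0]
      exact h3) (fun _ => 0) (fun _ => H) (fun _ => ⟨by
        refine le_trans (Real.rpow_le_rpow_of_exponent_le hp1 ?_) hH
        have h2 : 0 ≤ 1 / (n : ℝ) := by positivity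
        have h3 := le_max_left (1 / 2 + 1 / (n : ℝ)) (1 - 1 / n)
        linarith, hHp⟩) (by
      rw [Finset.prod_const, Finset.card_univ, Fintype.card_fin]
      have h2 : ((p : ℝ) ^ (max (1 / 2 + 1 / (n : ℝ)) (1 - 1 / n) + δ)) ^ n ≤ (H : ℝ) ^ n :=
        pow_le_pow_left₀ (Real.rpow_nonneg hp0.le _) hH n
      refine le_trans ?_ h2
      rw [← Real.rpow_natCast _ n, ← Real.rpow_mul hp0.le]
      apply Real.rpow_le_rpow_of_exponent_le hp1
      have e1 : (1 / 2 + 1 / (n : ℝ)) * n = (n : ℝ) / 2 + 1 := by field_simp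
      have e2 : (1 - 1 / (n : ℝ)) * n = (n : ℝ) - 1 := by field_simp
      have h3 : (max (1 / 2 + 1 / (n : ℝ)) (1 - 1 / n) + δ) * n = max ((n : ℝ) / 2 + 1) ((n : ℝ) - 1) + δ * n := by
        rw [add_mul, max_mul_of_nonneg _ _ hn0.le, e1, e2]
      rw [h3]
      push_cast
      nlinarith)
  rw [Finset.prod_const, Finset.card_univ, Fintype.card_fin, pow_one] at key
  refine key.trans ?_
  rw [Nat.cast_le]
  refine Set.ncard_le_ncard ?_ ?_
  · rintro z ⟨h2, h3, h4⟩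
    refine ⟨h2, fun i hi => h3 i ?_, ?_⟩
    · rw [eval_X]
      exact (ZMod.intCast_zmod_eq_zero_iff_dvd (z i) p).2 hi
    · have := h4 0
      simpa only [eval_one, eval_X, one_div] using this
  · refine (Set.Finite.pi' (fun j => Set.finite_Ioc (0 : ℤ) (0 + H))).subset ?_
    intro z hz j
    exact hz.1.1 j

end Pool.Agent.Results.MP_7b323f_nt.EgyptianFractionsModP
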