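import Pool.Agent.Run7.h620.PD.Fin

set_option autoImplicit false

/-!
# Palindromes with two digits in the middle of long prime gaps

In every base `b ≥ 2` and for all digits `e ≠ 0`, `f ≠ e` at least `2 ^ (K / 2 - K / log K)` of the about
`2 ^ (K / 2)` palindromes `n` with `K` digits, all of them `e` or `f`, have no prime within
`c log n log₂ n log₄ n / (log₃ n) ^ 2`.

Proof. A Maier matrix whose rows are the two-digit palindromes in one residue class modulo `P`, the product of
the primes up to `z = η K / log K`. By the Erdős–Rankin choice of the residue class all but `O(z)` of the
`c z (log z) ^ 2 log₃ z / (log₂ z) ^ 2` columns are covered by the primes up to `z`. In each of the other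
columns a proportion of at most `O(log z / K)` of the rows survives the primes up to `exp (c K)`, by the fundamental
lemma and a positive level of distribution of the two-digit palindromes, uniformly in the modulus `P`, which is
larger than every power of `K`. The exponential sums of the palindromes
`n₀ + (f - e) ∑_{i ∈ S} (b ^ i + b ^ (K - 1 - i))` are products; consecutive factors cannot both be close to `1`
where the expansion in balanced digits of a multiple of the frequency has a nonzero digit, and the nonzero digits
are counted for the fractions with all denominators `P d` at once.

`Nat.digits b n` is the list of the base `b` digits of `n`.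
-/

namespace Pool.Agent.Results.MP_7b323f_nt.PalindromesFarFromPrimes

open Finset Filter

open Classical in
/-- **Palindromes with two digits far from all primes.** -/
theorem result : ∀ b : ℕ, 2 ≤ b → ∀ e f : ℕ, e < b → f < b → e ≠ 0 → f ≠ e →
    ∃ c : ℝ, 0 < c ∧ ∀ᶠ K : ℕ in atTop,
      (2 : ℝ) ^ ((K : ℝ) / 2 - K / Real.log K) ≤
        (((Finset.range (b ^ K)).filter (fun n : ℕ =>
          (Nat.digits b n).length = K ∧ (Nat.digits b n).reverse = Nat.digits b n ∧
          (∀ d ∈ Nat.digits b n, d = e ∨ d = f) ∧
          ∀ p : ℕ, p.Prime → c * (Real.log n * Real.log (Real.log n) *
            Real.log (Real.log (Real.log (Real.log n))) / (Real.log (Real.log (Real.log n))) ^ 2) <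
              |(p : ℝ) - n|)).card : ℝ) :=
  Pool.Agent.Run7.h620.PD.palindromes

end Pool.Agent.Results.MP_7b323f_nt.PalindromesFarFromPrimes
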