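import Pool.Agent.Run7.h914.Crv
import Pool.Agent.Run7.h914.Gap

set_option autoImplicit false

/-!
# Large prime gaps around the points of plane curves modulo primes

Write `f(x) = log x (log₂ x)² log₄ x / (log₃ x)²` for the record size of the prime gaps.

Let `p` be a large prime and let `F(x, y) = 0` be ANY absolutely irreducible plane curve over the field with
`p` elements, not a line, of degree at most `p ^ (δ / 50)`.  Every box `(M₁, M₁ + L₁] × (M₂, M₂ + L₂]` with
`M₁, M₂ ≥ 2 p ^ δ`, with sides between `p ^ δ` and `p` and of area `V ≥ p ^ (3 / 2 + δ)` contains at least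
`p ^ (-δ) V / p` integer points `(x, y)` with `F(x, y) ≡ 0` modulo `p` such that `x`, `y`, `x y` and all the other
monomials `x ^ a y ^ b` with coprime exponents `a, b ≤ E` lie in gaps of length at least `κ f(p)` between consecutive
primes.  (A box of area `V` contains about `V / p` points of the curve.)

Proof.  The exponential sums over the curve are `≤ 12 d ^ 4 √p` (Weil's bound, proved in Lean in the library); the
families of vectors with small exponential sums are treated by the joint covering sieve of the library `N39.RG`.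
-/

namespace Pool.Agent.Results.MP_7b323f_nt.PointsOfPlaneCurves

open Polynomial

/-- The record scale `f(x) = log x (log₂ x)² log₄ x / (log₃ x)²` (iterated natural logarithms). -/
noncomputable def f (x : ℝ) : ℝ :=
  Real.log x * (Real.log (Real.log x)) ^ 2 * Real.log (Real.log (Real.log (Real.log x))) /
    (Real.log (Real.log (Real.log x))) ^ 2

/-- `n` lies strictly between two consecutive primes `q < q'` with `q' - q ≥ g`. -/
def InGap (g : ℝ) (n : ℤ) : Prop :=
  ∃ q q' : ℕ, q.Prime ∧ q'.Prime ∧ (q : ℤ) < n ∧ n < q' ∧ (∀ l : ℕ, q < l → l < q' → ¬ l.Prime) ∧ g ≤ (q' : ℝ) - q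

/-- The polynomial `F`, a polynomial in `y` whose coefficients are polynomials in `x`, is irreducible over
the algebraic closure of the field with `p` elements. -/
def AbsIrreducible (p : ℕ) [Fact p.Prime] (F : (ZMod p)[X][X]) : Prop :=
  Irreducible (F.map (mapRingHom (algebraMap (ZMod p) (AlgebraicClosure (ZMod p)))))

/-- The total degree of `F` is at most `d`. -/
def DegreeLE {p : ℕ} (F : (ZMod p)[X][X]) (d : ℕ) : Prop :=
  ∀ i j, d < i + j → (F.coeff i).coeff j = 0

/-- **Large prime gaps around the points of plane curves modulo primes.** -/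
theorem result (E : ℕ) (δ : ℝ) (hδ : 0 < δ) (hδ1 : δ ≤ 1) :
    ∃ κ : ℝ, 0 < κ ∧ ∃ p₀ : ℕ, ∀ (p : ℕ) [Fact p.Prime], p₀ ≤ p →
    ∀ (d : ℕ) (F : (ZMod p)[X][X]), (d : ℝ) ≤ (p : ℝ) ^ (δ / 50) → DegreeLE F d → ¬ DegreeLE F 1 →
      AbsIrreducible p F →
    ∀ (M₁ M₂ : ℤ) (L₁ L₂ : ℕ), 2 * (p : ℝ) ^ δ ≤ M₁ → 2 * (p : ℝ) ^ δ ≤ M₂ →
      (p : ℝ) ^ δ ≤ L₁ → L₁ ≤ p → (p : ℝ) ^ δ ≤ L₂ → L₂ ≤ p →
      (p : ℝ) ^ (3 / 2 + δ) ≤ L₁ * L₂ →
    (p : ℝ) ^ (-δ) * (L₁ * L₂ / p) ≤
      (Set.ncard {z : ℤ × ℤ | (M₁ < z.1 ∧ z.1 ≤ M₁ + L₁) ∧ (M₂ < z.2 ∧ z.2 ≤ M₂ + L₂) ∧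
        F.evalEval (z.1 : ZMod p) (z.2 : ZMod p) = 0 ∧
        ∀ a b : ℕ, a ≤ E → b ≤ E → Nat.Coprime a b → InGap (κ * f p) (z.1 ^ a * z.2 ^ b)} : ℝ) := by
  obtain ⟨κ, hκ, p₀, h⟩ := Run7.h914.rec_curve E δ hδ hδ1
  obtain ⟨p₁, h'⟩ := Run7.h914.ff_small κ δ hκ hδ
  refine ⟨κ, hκ, max p₀ p₁, ?_⟩
  intro p _ hp d F hd hF hF1 hirr M₁ M₂ L₁ L₂ hM1 hM2 h1 h2 h3 h4 hV
  obtain ⟨b0, b1, b2⟩ := h' p ((le_max_right _ _).trans hp)
  have hex : ∃ i j, 2 ≤ i + j ∧ (F.coeff i).coeff j ≠ 0 := by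
    by_contra hc
    push Not at hc
    exact hF1 fun i j hij => hc i j (by omega)
  have key := h p ((le_max_left _ _).trans hp) d F hd hF hex hirr (fun j => if j = 0 then M₁ else M₂)
    (fun j => if j = 0 then L₁ else L₂) (by
    intro j
    by_cases hj : j = 0
    · simp only [hj, if_true]; exact ⟨h1, h2⟩
    · simp only [hj, if_false]; exact ⟨h3, h4⟩) (by simpa using hV)
  refine le_trans (le_of_eq (by simp)) (key.trans ?_)
  rw [Nat.cast_le]
  refine Set.ncard_le_ncard_of_injOn (fun z => (z 0, z 1)) ?_ ?_ ?_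
  · rintro z ⟨hz1, hz2, hz3⟩
    have e0 := hz1 0
    have e1 := hz1 1
    simp only [if_true, Fin.one_eq_zero_iff, OfNat.ofNat_ne_one, if_false] at e0 e1
    refine ⟨e0, e1, hz2, ?_⟩
    intro a b ha hb hab
    have hz : ∀ j : Fin 2, 2 * (p : ℝ) ^ δ < z j := by
      intro j
      fin_cases j
      · have : (M₁ : ℝ) < z 0 := by exact_mod_cast e0.1
        exact lt_of_le_of_lt hM1 this
      · have : (M₂ : ℝ) < z 1 := by exact_mod_cast e1.1
        exact lt_of_le_of_lt hM2 this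
    have hgcd : Finset.univ.gcd (fun j : Fin 2 => if j = 0 then a else b) = 1 := by
      rw [show (Finset.univ : Finset (Fin 2)) = {0, 1} by rfl, Finset.gcd_insert, Finset.gcd_singleton]
      simpa [gcd_eq_nat_gcd] using hab
    have h6 := Run7.h914.gaps_of (ι := Fin 2) (z := z) (e := fun j => if j = 0 then a else b) b0 b1 b2 hz hgcd
      (fun m hm => by
      refine hz3 (fun j => if j = 0 then a else b) ?_ ?_ m ?_
      · intro j
        by_cases hj : j = 0
        · simp only [hj, if_true]; exact ha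
        · simp only [hj, if_false]; exact hb
      · simpa using hab
      · simpa [Fin.prod_univ_two] using hm)
    simp only [Fin.prod_univ_two, if_true, Fin.one_eq_zero_iff, OfNat.ofNat_ne_one, if_false] at h6
    exact h6
  · intro z _ z' _ hzz
    simp only [Prod.mk.injEq] at hzz
    funext j
    fin_cases j
    · exact hzz.1
    · exact hzz.2
  · refine (Set.finite_Icc (M₁, M₂) (M₁ + L₁, M₂ + L₂)).subset ?_
    rintro z ⟨hz1, hz2, -⟩
    exact ⟨⟨hz1.1.le, hz2.1.le⟩, ⟨hz1.2, hz2.2⟩⟩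

end Pool.Agent.Results.MP_7b323f_nt.PointsOfPlaneCurves
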