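import Pool.Agent.Run7.h63.PR7

set_option autoImplicit false

/-!
# Large prime gaps around the values of arbitrary integer polynomials at prime numbers

Starting files used: the relative theorem of Bombieri and Vinogradov (`Pool.Agent.H378R2`), the count of the
survivors of Rankin's two steps for an arbitrary second class (`Pool.Agent.H426R3.SQ.S3e`), Mertens' estimates.
New: for every integer polynomial `f` there are, uniformly in the shift `u`, at least `y` primes in `(y, y^A]`
modulo which `f + u` has a root (helper63, files PM1-PM4, see MP_028722_nt.PolynomialValues); here they are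
sorted into groups in such a way that the modulus made of one prime of every group avoids the few exceptional
moduli of the relative theorem, so that the argument of the polynomials can be a prime number.
-/

open Polynomial

namespace Pool.Agent.Results.MP_7b323f_nt.PolynomialValuesAtPrimes

/-- Let `f 1, ..., f r` be nonconstant polynomials with integer coefficients and positive leading coefficients. There
are `c > 0` and `X₀` such that for all `X ≥ X₀` at least `X ^ (49/50)` prime numbers `p` of `(X, 3X]` are such that for
every `i` no prime `q ≠ p` lies within `c log X log₂ X log₄ X / (log₃ X)²` of `f i (p)`. (The exception `q ≠ p`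
matters only for the polynomials `f i = x + b`.) -/
theorem result (r : ℕ) (f : Fin r → ℤ[X]) (hd : ∀ i, 1 ≤ (f i).natDegree)
    (hlc : ∀ i, 0 < (f i).leadingCoeff) :
    ∃ c : ℝ, 0 < c ∧ ∃ X₀ : ℝ, ∀ X : ℝ, X₀ ≤ X →
      ∃ A : Finset ℕ, X ^ (49 / 50 : ℝ) ≤ (A.card : ℝ) ∧
        ∀ p ∈ A, p.Prime ∧ X < (p : ℝ) ∧ (p : ℝ) ≤ 3 * X ∧ ∀ i, ∀ q : ℕ, q.Prime → q ≠ p →
          c * (Real.log X * Real.log (Real.log X) * Real.log (Real.log (Real.log (Real.log X))) /
            (Real.log (Real.log (Real.log X))) ^ 2) <
              |(q : ℝ) - (((f i).eval (p : ℤ) : ℤ) : ℝ)| := by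
  obtain ⟨c, hc, X₀, h⟩ := Run7.h63.PR.primes_main f hd hlc
  exact ⟨c, hc, X₀, fun X hX => h X hX⟩

end Pool.Agent.Results.MP_7b323f_nt.PolynomialValuesAtPrimes
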